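import Pool.Agent.N71.PS.DStubs
import Pool.Agent.N71.PS.CC7

set_option autoImplicit false

/-!
# PSD/CC7: the bad f, uniformly in the modulus
-/

namespace Pool.Agent.N71.PS.DCC7

open Finset Filter NumberField Pool.Agent.H38R2.CG Pool.Agent.H38R2.CG2
open Pool.Agent.N71.PS Pool.Agent.N71.PS.CC7h
open scoped Classical

variable [PSet]

theorem D_CC7_true (h5 : P_CC5) (h8 : D_CC8) : D_CC7 := by
  obtain ⟨K0, h8⟩ := h8
  refine ⟨K0, fun a ha M hM C1 ε hε => ?_⟩
  obtain ⟨y8, h8⟩ := h8 M hM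
  obtain ⟨C', hC', hom⟩ := omega_bound C1 (1 / 2) (by norm_num)
  obtain ⟨F, hF⟩ : ∃ F : ℕ, F = ⌈(2 * K0 * C' / ε) ^ 2⌉₊ + 1 := ⟨_, rfl⟩
  obtain ⟨X5, hX5⟩ := CC7_large h5 (1 / 2) (by norm_num) a ha M hM C1 (ε / 2) (by positivity)
  refine ⟨F, ?_⟩
  rw [← Filter.eventually_atTop]
  filter_upwards [eventually_ge_atTop X5, (tendsto_yA a ha).eventually_ge_atTop y8,
    (tendsto_logyA a ha).eventually_ge_atTop ((F : ℝ) + 1)] with X h1 h2 h3
  have hlarge := hX5 X h1
  obtain ⟨l, hl⟩ : ∃ l : ℝ, l = Real.log (yA a X) := ⟨_, rfl⟩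
  have h8' := h8 (yA a X) h2
  rw [← hl] at h8' hlarge h3
  constructor
  · refine le_trans (Finset.card_le_card ?_) h8'
    intro f hf
    rw [Finset.mem_filter, Finset.mem_Icc] at hf ⊢
    obtain ⟨⟨hf1, hfF⟩, hsf, hcop, hbad⟩ := hf
    refine ⟨⟨hf1, ?_⟩, hsf, hcop, hbad⟩
    apply Nat.le_floor
    have hF0 : (0 : ℝ) ≤ F := Nat.cast_nonneg _
    have e1 : (f : ℝ) ≤ F := by exact_mod_cast hfF
    have e2 : (1 : ℝ) ≤ l := by linarith
    have e3 : l ≤ l ^ 3 := by
      have : l * 1 ≤ l * l ^ 2 := mul_le_mul_of_nonneg_left (one_le_pow₀ e2) (by linarith)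
      nlinarith
    linarith
  · obtain ⟨v, hv⟩ : ∃ v : ℕ → ℝ, v = fun f : ℕ => (C1 : ℝ) ^ f.primeFactors.card / f := ⟨_, rfl⟩
    obtain ⟨S, hS⟩ : ∃ S : Finset ℕ, S = (Finset.Icc 1 X).filter
      (fun f => F < f ∧ Squarefree f ∧ f.Coprime (2 * M) ∧ BadF (1 / 2) M (yA a X) f) := ⟨_, rfl⟩
    have hvn : ∀ f : ℕ, 0 ≤ v f := fun f => by rw [hv]; positivity
    have hgoal : ∑ f ∈ S, v f ≤ ε := by
      have hsplit : ∑ f ∈ S, v f = ∑ f ∈ S.filter (fun f : ℕ => l ^ 3 < (f : ℝ)), v f +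
          ∑ f ∈ S.filter (fun f : ℕ => ¬ l ^ 3 < (f : ℝ)), v f :=
        (Finset.sum_filter_add_sum_filter_not _ _ _).symm
      rw [hsplit]
      have e1 : ∑ f ∈ S.filter (fun f : ℕ => l ^ 3 < (f : ℝ)), v f ≤ ε / 2 := by
        refine le_trans ?_ hlarge
        have hvf : ∀ f : ℕ, (C1 : ℝ) ^ f.primeFactors.card / f = v f := fun f => by rw [hv]
        simp only [hvf]
        apply Finset.sum_le_sum_of_subset_of_nonneg
        · intro f hf
          rw [Finset.mem_filter, hS, Finset.mem_filter] at hf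
          rw [Finset.mem_filter]
          obtain ⟨⟨hI, hfF, hsf, hcop, hbad⟩, hlt⟩ := hf
          exact ⟨hI, hsf, hcop, hbad, hlt⟩
        · intro f _ _
          exact hvn f
      have hsmall : ∑ f ∈ S.filter (fun f : ℕ => ¬ l ^ 3 < (f : ℝ)), v f ≤ ε / 2 := by
        have hsF : 0 < √(F : ℝ) := Real.sqrt_pos.2 (by
          have : 1 ≤ F := by omega
          exact_mod_cast this)
        have hterm : ∀ f ∈ S.filter (fun f : ℕ => ¬ l ^ 3 < (f : ℝ)), v f ≤ C' / √(F : ℝ) := by
          intro f hf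
          rw [Finset.mem_filter, hS, Finset.mem_filter, Finset.mem_Icc] at hf
          obtain ⟨⟨⟨hf1, hfX⟩, hfF, hsf, hcop, hbad⟩, hle⟩ := hf
          have hf0 : (0 : ℝ) < f := by exact_mod_cast hf1
          have g1 := hom f hf1
          rw [← Real.sqrt_eq_rpow] at g1
          have g2 : √(F : ℝ) ≤ √(f : ℝ) := Real.sqrt_le_sqrt (by exact_mod_cast hfF.le)
          have g3 : √(f : ℝ) * √(f : ℝ) = f := Real.mul_self_sqrt hf0.le
          have g4 : 0 < √(f : ℝ) := Real.sqrt_pos.2 hf0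
          calc v f ≤ C' * √(f : ℝ) / f := by
                rw [hv]
                exact div_le_div_of_nonneg_right g1 hf0.le
            _ = C' / √(f : ℝ) := by
                nth_rewrite 2 [← g3]
                field_simp
            _ ≤ C' / √(F : ℝ) := div_le_div_of_nonneg_left hC'.le hsF g2
        refine (Finset.sum_le_sum hterm).trans ?_
        rw [Finset.sum_const, nsmul_eq_mul]
        have hcard : ((S.filter (fun f : ℕ => ¬ l ^ 3 < (f : ℝ))).card : ℝ) ≤ K0 := by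
          have hc : (S.filter (fun f : ℕ => ¬ l ^ 3 < (f : ℝ))).card ≤ K0 := by
            refine le_trans (Finset.card_le_card ?_) h8'
            intro f hf
            rw [Finset.mem_filter, hS, Finset.mem_filter, Finset.mem_Icc] at hf
            obtain ⟨⟨⟨hf1, hfX⟩, hfF, hsf, hcop, hbad⟩, hle⟩ := hf
            rw [Finset.mem_filter, Finset.mem_Icc]
            exact ⟨⟨hf1, Nat.le_floor (not_lt.1 hle)⟩, hsf, hcop, hbad⟩
          exact_mod_cast hc
        calc ((S.filter (fun f : ℕ => ¬ l ^ 3 < (f : ℝ))).card : ℝ) * (C' / √(F : ℝ)) ≤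
              K0 * (C' / √(F : ℝ)) := mul_le_mul_of_nonneg_right hcard (by positivity)
          _ ≤ ε / 2 := by
              have g5 : 2 * K0 * C' / ε ≤ √(F : ℝ) := by
                apply Real.le_sqrt_of_sq_le
                have := Nat.le_ceil ((2 * K0 * C' / ε) ^ 2)
                rw [hF]
                push_cast
                linarith
              rw [div_le_iff₀ hε] at g5
              rw [← mul_div_assoc, div_le_iff₀ hsF]
              linarith
      linarith
    rw [hS, hv] at hgoal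
    convert hgoal using 2

end Pool.Agent.N71.PS.DCC7
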